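import Mathlib

set_option autoImplicit false

/-!
Semidirect products of a topological abelian group by a finite group, as topological groups.
-/

namespace Pool.Agent.V1128.Quat

/-- The semidirect product of `A` by `Q`. -/
@[ext] structure Aff (A Q : Type) where
  /-- the translation part -/
  v : A
  /-- the linear part -/
  q : Q

variable {A Q : Type} [AddCommGroup A] [Group Q] [DistribMulAction Q A]

instance : Mul (Aff A Q) := ⟨fun x y => ⟨x.v + x.q • y.v, x.q * y.q⟩⟩
instance : One (Aff A Q) := ⟨⟨0, 1⟩⟩
instance : Inv (Aff A Q) := ⟨fun x => ⟨-(x.q⁻¹ • x.v), x.q⁻¹⟩⟩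

@[simp] theorem mul_v (x y : Aff A Q) : (x * y).v = x.v + x.q • y.v := rfl
@[simp] theorem mul_q (x y : Aff A Q) : (x * y).q = x.q * y.q := rfl
omit [DistribMulAction Q A] in
@[simp] theorem one_v : (1 : Aff A Q).v = 0 := rfl
omit [DistribMulAction Q A] in
@[simp] theorem one_q : (1 : Aff A Q).q = 1 := rfl
@[simp] theorem inv_v (x : Aff A Q) : (x⁻¹).v = -(x.q⁻¹ • x.v) := rfl
@[simp] theorem inv_q (x : Aff A Q) : (x⁻¹).q = x.q⁻¹ := rfl

instance : Group (Aff A Q) where
  mul_assoc x y z := by
    ext
    · simp [mul_smul, add_assoc]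
    · simp [mul_assoc]
  one_mul x := by ext <;> simp
  mul_one x := by ext <;> simp
  inv_mul_cancel x := by ext <;> simp

/-- The linear part, as a homomorphism. -/
def lin : Aff A Q →* Q where
  toFun x := x.q
  map_one' := rfl
  map_mul' _ _ := rfl

variable [TopologicalSpace A]

/-- The topology of the product of `A` and the discrete set `Q`. -/
instance affTop : TopologicalSpace (Aff A Q) :=
  TopologicalSpace.induced (fun x => (x.v, x.q)) (@instTopologicalSpaceProd A Q _ ⊥)

omit [AddCommGroup A] [Group Q] [DistribMulAction Q A] in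
theorem cont_pair : @Continuous _ _ _ (@instTopologicalSpaceProd A Q _ ⊥)
    (fun x : Aff A Q => (x.v, x.q)) := continuous_induced_dom

omit [AddCommGroup A] [Group Q] [DistribMulAction Q A] in
theorem cont_v : Continuous (fun x : Aff A Q => x.v) := by
  let _ : TopologicalSpace Q := ⊥
  exact continuous_fst.comp cont_pair

omit [AddCommGroup A] [Group Q] [DistribMulAction Q A] in
theorem cont_q : @Continuous _ _ _ ⊥ (fun x : Aff A Q => x.q) := by
  let _ : TopologicalSpace Q := ⊥
  exact continuous_snd.comp cont_pair

omit [AddCommGroup A] [Group Q] [DistribMulAction Q A] in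
theorem cont_mk {X : Type} [TopologicalSpace X]
    {f : X → Aff A Q} (h1 : Continuous fun x => (f x).v) (h2 : @Continuous _ _ _ ⊥ fun x => (f x).q) :
    Continuous f := by
  let _ : TopologicalSpace Q := ⊥
  exact continuous_induced_rng.mpr (h1.prodMk h2)

/-- `Aff A Q` is homeomorphic to `A × Q`. -/
def homeo (A Q : Type) [TopologicalSpace A] : @Homeomorph (Aff A Q) (A × Q) _ (@instTopologicalSpaceProd A Q _ ⊥) :=
  @Homeomorph.mk _ _ _ (@instTopologicalSpaceProd A Q _ ⊥)
    { toFun := fun x => (x.v, x.q)
      invFun := fun x => ⟨x.1, x.2⟩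
      left_inv := fun _ => rfl
      right_inv := fun _ => rfl } cont_pair
    (by
      let _ : TopologicalSpace Q := ⊥
      exact cont_mk continuous_fst continuous_snd)

theorem topGroup [IsTopologicalAddGroup A] (hact : ∀ q : Q, Continuous fun a : A => q • a) :
    IsTopologicalGroup (Aff A Q) := by
  let _ : TopologicalSpace Q := ⊥
  have _ : DiscreteTopology Q := ⟨rfl⟩
  have hsm : Continuous (fun p : Q × A => p.1 • p.2) := by
    rw [continuous_iff_continuousAt]
    rintro ⟨q, a⟩
    have h1 : Continuous (fun p : Q × A => q • p.2) := (hact q).comp continuous_snd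
    refine h1.continuousAt.congr ?_
    have h2 : {p : Q × A | p.1 = q} ∈ nhds (q, a) :=
      ((isOpen_discrete {q}).preimage continuous_fst).mem_nhds rfl
    filter_upwards [h2] with p hp
    rw [show p.1 = q from hp]
  have hinv : Continuous (fun q : Q => q⁻¹) := continuous_of_discreteTopology
  have hmul : Continuous (fun q : Q × Q => q.1 * q.2) := continuous_of_discreteTopology
  refine { continuous_mul := ?_, continuous_inv := ?_ }
  · apply cont_mk
    · exact (cont_v.comp continuous_fst).add
        (hsm.comp ((cont_q.comp continuous_fst).prodMk (cont_v.comp continuous_snd)))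
    · exact hmul.comp ((cont_q.comp continuous_fst).prodMk (cont_q.comp continuous_snd))
  · apply cont_mk
    · exact (hsm.comp ((hinv.comp cont_q).prodMk cont_v)).neg
    · exact hinv.comp cont_q

omit [AddCommGroup A] [Group Q] [DistribMulAction Q A] in
theorem compact [Finite Q] [CompactSpace A] : CompactSpace (Aff A Q) := by
  let _ : TopologicalSpace Q := ⊥
  have _ : DiscreteTopology Q := ⟨rfl⟩
  exact (homeo A Q).symm.compactSpace

omit [AddCommGroup A] [Group Q] [DistribMulAction Q A] in
theorem t2 [T2Space A] : T2Space (Aff A Q) := by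
  let _ : TopologicalSpace Q := ⊥
  have _ : DiscreteTopology Q := ⟨rfl⟩
  exact (homeo A Q).symm.t2Space

omit [AddCommGroup A] [Group Q] [DistribMulAction Q A] in
theorem totDisc [TotallyDisconnectedSpace A] : TotallyDisconnectedSpace (Aff A Q) := by
  let _ : TopologicalSpace Q := ⊥
  have _ : DiscreteTopology Q := ⟨rfl⟩
  exact (homeo A Q).isEmbedding.isTotallyDisconnected_range.mp
    (isTotallyDisconnected_of_totallyDisconnectedSpace _)

end Pool.Agent.V1128.Quat
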