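import Mathlib
import Pool.Agent.V1128.Quat.Aff

set_option autoImplicit false

/-!
The module of odd functions on a generalised quaternion group.
-/

namespace Pool.Agent.V1128.Quat

open QuaternionGroup

section Num

theorem pow_a {k : ℕ} (s : ZMod (2 * k)) (r : ℕ) : (a s : QuaternionGroup k) ^ r = a ((r : ZMod (2 * k)) * s) := by
  induction r with
  | zero => rw [pow_zero, Nat.cast_zero, zero_mul, ← one_def]
  | succ r ih =>
    rw [pow_succ, ih, a_mul_a]
    congr 1
    push_cast
    ring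

theorem num1 {N : ℕ} {s : ZMod (2 * 2 ^ N)} (hs : s ≠ 0) :
    ∃ r : ℕ, (r : ZMod (2 * 2 ^ N)) * s = ((2 ^ N : ℕ) : ZMod (2 * 2 ^ N)) := by
  have : NeZero (2 * 2 ^ N) := ⟨by positivity⟩
  have hv : s.val ≠ 0 := by rwa [ne_eq, ZMod.val_eq_zero]
  obtain ⟨e, c, hc, he⟩ := Nat.exists_eq_two_pow_mul_odd hv
  have hlt : s.val < 2 * 2 ^ N := ZMod.val_lt s
  have heN : e ≤ N := by
    by_contra h
    push Not at h
    have h1 : 2 ^ (N + 1) ≤ 2 ^ e := Nat.pow_le_pow_right (by norm_num) h
    have h2 : 2 ^ e ≤ 2 ^ e * c := Nat.le_mul_of_pos_right _ hc.pos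
    rw [pow_succ] at h1
    omega
  refine ⟨2 ^ (N - e), ?_⟩
  obtain ⟨c', rfl⟩ := hc
  have h3 : ((2 ^ (N - e) * s.val : ℕ) : ZMod (2 * 2 ^ N)) = ((2 ^ N : ℕ) : ZMod (2 * 2 ^ N)) := by
    rw [ZMod.natCast_eq_natCast_iff]
    rw [he, ← mul_assoc, ← pow_add, Nat.sub_add_cancel heN]
    have : 2 ^ N * (2 * c' + 1) = 2 ^ N + (2 * 2 ^ N) * c' := by ring
    rw [this]
    exact (Nat.modEq_zero_iff_dvd.mpr (dvd_mul_right _ _)).add_left _
  rw [← h3]
  push_cast
  rw [ZMod.natCast_zmod_val]

theorem num2 {N : ℕ} (hN : 1 ≤ N) {s : ZMod (2 * 2 ^ N)} (hs : 2 * s ≠ 0) :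
    ∃ r : ℕ, (r : ZMod (2 * 2 ^ N)) * s = ((2 ^ (N - 1) : ℕ) : ZMod (2 * 2 ^ N)) := by
  have : NeZero (2 * 2 ^ N) := ⟨by positivity⟩
  have hv : s.val ≠ 0 := by
    intro h
    rw [ZMod.val_eq_zero] at h
    exact hs (by rw [h, mul_zero])
  obtain ⟨e, c, hc, he⟩ := Nat.exists_eq_two_pow_mul_odd hv
  have hlt : s.val < 2 * 2 ^ N := ZMod.val_lt s
  have heN : e + 1 ≤ N := by
    by_contra h
    push Not at h
    apply hs
    have h1 : ((2 * s.val : ℕ) : ZMod (2 * 2 ^ N)) = 0 := by
      rw [ZMod.natCast_eq_zero_iff, he]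
      obtain ⟨t, rfl⟩ := Nat.exists_eq_add_of_le (Nat.lt_succ_iff.mp h)
      exact ⟨2 ^ t * c, by ring⟩
    push_cast at h1
    rwa [ZMod.natCast_zmod_val] at h1
  refine ⟨2 ^ (N - 1 - e) * c, ?_⟩
  have h3 : ((2 ^ (N - 1 - e) * c * s.val : ℕ) : ZMod (2 * 2 ^ N)) = ((2 ^ (N - 1) : ℕ) : ZMod (2 * 2 ^ N)) := by
    rw [ZMod.natCast_eq_natCast_iff]
    have h4 : 2 ^ (N - 1 - e) * c * (2 ^ e * c) = 2 ^ (N - 1) * (c * c) := by
      have : 2 ^ (N - 1) = 2 ^ (N - 1 - e) * 2 ^ e := by
        rw [← pow_add, Nat.sub_add_cancel (by omega)]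
      rw [this]
      ring
    rw [he, h4]
    obtain ⟨c', rfl⟩ := hc
    have h5 : 2 * 2 ^ N = 2 ^ (N - 1) * 4 := by
      obtain ⟨M, rfl⟩ := Nat.exists_eq_add_of_le hN
      rw [Nat.add_sub_cancel_left, pow_add]
      ring
    have : 2 ^ (N - 1) * ((2 * c' + 1) * (2 * c' + 1)) = 2 ^ (N - 1) + (2 * 2 ^ N) * (c' * c' + c') := by
      rw [h5]
      ring
    rw [this]
    exact (Nat.modEq_zero_iff_dvd.mpr (dvd_mul_right _ _)).add_left _
  rw [← h3]
  push_cast
  rw [ZMod.natCast_zmod_val]

end Num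

instance : Fact (Nat.Prime 2) := ⟨Nat.prime_two⟩

section Odd

variable (k : ℕ)

/-- The central involution. -/
abbrev zz : QuaternionGroup k := a (k : ZMod (2 * k))

theorem two_k : (k : ZMod (2 * k)) + k = 0 := by
  have : ((2 * k : ℕ) : ZMod (2 * k)) = 0 := ZMod.natCast_self _
  push_cast at this
  linear_combination this

theorem zz_comm (q : QuaternionGroup k) : zz k * q = q * zz k := by
  rcases q with i | i
  · simp [zz, add_comm]
  · simp only [zz, a_mul_xa, xa_mul_a]
    congr 1
    linear_combination -(two_k k)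

theorem zz_sq : zz k * zz k = 1 := by
  rw [zz, a_mul_a, two_k]
  rfl

/-- The odd functions on the quaternion group. -/
def OddF : AddSubgroup (QuaternionGroup k → ℤ_[2]) where
  carrier := {f | ∀ q, f (zz k * q) = -f q}
  zero_mem' := by intro q; simp
  add_mem' := by
    intro f g hf hg q
    rw [Pi.add_apply, Pi.add_apply, hf, hg]
    ring
  neg_mem' := by
    intro f hf q
    rw [Pi.neg_apply, Pi.neg_apply, hf]

variable {k}

instance : DistribMulAction (QuaternionGroup k) (OddF k) where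
  smul g f := ⟨fun q => f.1 (g⁻¹ * q), fun q => by
    change f.1 (g⁻¹ * (zz k * q)) = -f.1 (g⁻¹ * q)
    rw [← mul_assoc, ← zz_comm, mul_assoc]
    exact f.2 _⟩
  one_smul f := by
    apply Subtype.ext
    funext q
    change f.1 (1⁻¹ * q) = f.1 q
    rw [inv_one, one_mul]
  mul_smul g h f := by
    apply Subtype.ext
    funext q
    change f.1 ((g * h)⁻¹ * q) = f.1 (h⁻¹ * (g⁻¹ * q))
    rw [mul_inv_rev, mul_assoc]
  smul_zero _ := rfl
  smul_add _ _ _ := rfl

theorem smul_apply (g : QuaternionGroup k) (f : OddF k) (q : QuaternionGroup k) :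
    (g • f).1 q = f.1 (g⁻¹ * q) := rfl

theorem zz_smul (f : OddF k) : zz k • f = -f := by
  apply Subtype.ext
  funext q
  rw [smul_apply]
  have : (zz k)⁻¹ = zz k := by
    rw [inv_eq_iff_mul_eq_one, zz_sq]
  rw [this]
  exact f.2 q

theorem smul_cont (g : QuaternionGroup k) : Continuous fun f : OddF k => g • f := by
  apply Continuous.subtype_mk
  exact continuous_pi fun q => (continuous_apply (g⁻¹ * q)).comp continuous_subtype_val

theorem OddF_closed : IsClosed (OddF k : Set (QuaternionGroup k → ℤ_[2])) := by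
  have : (OddF k : Set (QuaternionGroup k → ℤ_[2])) = ⋂ q, {f | f (zz k * q) = -f q} := by
    ext f
    simp only [Set.mem_iInter]
    rfl
  rw [this]
  exact isClosed_iInter fun q => isClosed_eq (continuous_apply _) (continuous_apply _).neg

variable (k) in
/-- The subgroup `{1, z}`. -/
def ZZ : Subgroup (QuaternionGroup k) where
  carrier := {x | x = 1 ∨ x = zz k}
  one_mem' := Or.inl rfl
  mul_mem' := by
    rintro x y (rfl | rfl) (rfl | rfl)
    · exact Or.inl (one_mul _)
    · exact Or.inr (one_mul _)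
    · exact Or.inr (mul_one _)
    · exact Or.inl (zz_sq k)
  inv_mem' := by
    rintro x (rfl | rfl)
    · exact Or.inl inv_one
    · right
      rw [inv_eq_iff_mul_eq_one, zz_sq]

theorem neg_mod_two (x : ZMod 2) : -x = x := by
  revert x
  decide

/-- The reduction of an odd function modulo `2`. -/
noncomputable def bar (f : OddF k) : QuaternionGroup k ⧸ ZZ k → ZMod 2 :=
  Quotient.lift (fun q => PadicInt.toZMod (f.1 q)) (by
    intro q q' h
    have h1 : q⁻¹ * q' ∈ ZZ k := QuotientGroup.leftRel_apply.mp h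
    rcases h1 with h2 | h2
    · rw [inv_mul_eq_one] at h2
      rw [h2]
    · rw [inv_mul_eq_iff_eq_mul] at h2
      rw [h2, ← zz_comm, f.2 q, map_neg, neg_mod_two])

theorem bar_mk (f : OddF k) (q : QuaternionGroup k) :
    bar f (QuotientGroup.mk q) = PadicInt.toZMod (f.1 q) := rfl

noncomputable instance [NeZero k] : Fintype (QuaternionGroup k ⧸ ZZ k) := Fintype.ofFinite _

/-- The augmentation modulo `2`. -/
noncomputable def aug [NeZero k] : OddF k →+ ZMod 2 where
  toFun f := ∑ d, bar f d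
  map_zero' := by
    apply Finset.sum_eq_zero
    intro d _
    induction d using QuotientGroup.induction_on with
    | H q =>
      rw [bar_mk]
      exact map_zero _
  map_add' f g := by
    rw [← Finset.sum_add_distrib]
    apply Finset.sum_congr rfl
    intro d _
    induction d using QuotientGroup.induction_on with
    | H q =>
      rw [bar_mk, bar_mk, bar_mk, ← map_add]
      rfl

theorem aug_smul [NeZero k] (g : QuaternionGroup k) (f : OddF k) : aug (g • f) = aug f := by
  have h : ∀ d, bar (g • f) d = bar f (g⁻¹ • d) := by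
    intro d
    induction d using QuotientGroup.induction_on with
    | H q => rfl
  change ∑ d, bar (g • f) d = ∑ d, bar f d
  simp_rw [h]
  exact Equiv.sum_comp (MulAction.toPerm g⁻¹) (bar f)

theorem exists_aug [NeZero k] : ∃ f : OddF k, aug f = 1 := by
  classical
  have hne : zz k ≠ 1 := by
    intro h
    have h1 : (k : ZMod (2 * k)) = 0 := by
      have := QuaternionGroup.a.inj (h.trans (one_def (n := k)))
      exact this
    rw [ZMod.natCast_eq_zero_iff] at h1
    have h2 := Nat.le_of_dvd (Nat.pos_of_ne_zero (NeZero.ne k)) h1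
    have h3 := Nat.pos_of_ne_zero (NeZero.ne k)
    omega
  let f : OddF k := ⟨fun q => if q = 1 then 1 else if q = zz k then -1 else 0, by
    intro q
    by_cases h1 : q = 1
    · simp [h1, hne]
    · by_cases h2 : q = zz k
      · rw [h2, zz_sq]
        simp [hne]
      · have h3 : zz k * q ≠ 1 := by
          intro h
          apply h2
          apply mul_left_cancel (a := zz k)
          rw [h, zz_sq]
        have h4 : zz k * q ≠ zz k := by
          intro h
          exact h1 (mul_eq_left.mp h)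
        simp [h1, h2, h3, h4]⟩
  refine ⟨f, ?_⟩
  change ∑ d, bar f d = 1
  rw [Finset.sum_eq_single (QuotientGroup.mk 1)]
  · rw [bar_mk]
    simp [f]
  · intro d _ hd
    induction d using QuotientGroup.induction_on with
    | H q =>
      have h1 : q ≠ 1 := fun h => hd (by rw [h])
      have h2 : q ≠ zz k := fun h => hd (by
        rw [QuotientGroup.eq, h, mul_one]
        exact (ZZ k).inv_mem (Or.inr rfl))
      rw [bar_mk]
      simp [f, h1, h2]
  · intro h
    exact absurd (Finset.mem_univ _) h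

end Odd

end Pool.Agent.V1128.Quat
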