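import Mathlib
import Pool.Agent.V1128.Quat.Odd

set_option autoImplicit false

/-!
The extension of the generalised quaternion group.
-/

namespace Pool.Agent.V1128.Quat

open QuaternionGroup

variable {k : ℕ}

/-- The character with kernel `⟨x⟩`. -/
def chi (k : ℕ) : QuaternionGroup k → ZMod 2
  | a _ => 0
  | xa _ => 1

theorem chi_mul (p q : QuaternionGroup k) : chi k (p * q) = chi k p + chi k q := by
  rcases p with i | i <;> rcases q with j | j
  · simp [chi]
  · simp [chi]
  · simp [chi]
  · rw [xa_mul_xa]
    simp only [chi]
    decide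

/-- The character on the cosets. -/
def chibar (k : ℕ) : QuaternionGroup k ⧸ ZZ k → ZMod 2 :=
  Quotient.lift (chi k) (by
    intro q q' h
    have h1 : q⁻¹ * q' ∈ ZZ k := QuotientGroup.leftRel_apply.mp h
    rcases h1 with h2 | h2
    · rw [inv_mul_eq_one] at h2
      rw [h2]
    · rw [inv_mul_eq_iff_eq_mul] at h2
      rw [h2, chi_mul]
      simp [chi])

theorem chibar_smul (g : QuaternionGroup k) (d : QuaternionGroup k ⧸ ZZ k) :
    chibar k (g • d) = chi k g + chibar k d := by
  induction d using QuotientGroup.induction_on with
  | H q => exact chi_mul g q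

/-- The main computation. -/
theorem key [NeZero k] {i j : QuaternionGroup k} (hi : i * i = zz k) (hi1 : i ≠ 1) (hiz : i ≠ zz k)
    (hj : j * j = zz k) (hci : chi k i = 0) (hcj : chi k j = 1) {u w w' : OddF k}
    (hw : 2 • w = u - j • u) (hw' : 2 • w' = u - i • u) : aug w = 0 := by
  classical
  have hinv : ∀ {j : QuaternionGroup k}, j * j = zz k → j⁻¹ = zz k * j := by
    intro j hj
    rw [inv_eq_iff_mul_eq_one, ← mul_assoc, ← zz_comm, mul_assoc, hj, zz_sq]
  have hj2 : ∀ r, 2 * w.1 r = u.1 r + u.1 (j * r) := by
    intro r
    have h := congrArg (fun f : OddF k => f.1 r) hw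
    simp only [smul_apply, AddSubgroup.coe_sub, Pi.sub_apply, AddSubmonoidClass.coe_nsmul,
      Pi.smul_apply, nsmul_eq_mul, Nat.cast_ofNat] at h
    rw [hinv hj, mul_assoc, u.2] at h
    rw [h]
    ring
  have hi2 : ∀ r, 2 * w'.1 r = u.1 r + u.1 (i * r) := by
    intro r
    have h := congrArg (fun f : OddF k => f.1 r) hw'
    simp only [smul_apply, AddSubgroup.coe_sub, Pi.sub_apply, AddSubmonoidClass.coe_nsmul,
      Pi.smul_apply, nsmul_eq_mul, Nat.cast_ofNat] at h
    rw [hinv hi, mul_assoc, u.2] at h
    rw [h]
    ring
  have h20 : (2 : ZMod 2) = 0 := by decide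
  have hui : ∀ d, bar u (i • d) = bar u d := by
    intro d
    induction d using QuotientGroup.induction_on with
    | H r =>
      have h := congrArg PadicInt.toZMod (hi2 r)
      rw [map_mul, map_ofNat, h20, zero_mul, map_add] at h
      change PadicInt.toZMod (u.1 (i * r)) = PadicInt.toZMod (u.1 r)
      rw [← neg_mod_two (PadicInt.toZMod (u.1 r))]
      linear_combination -h
  have hww : ∀ d, bar w d + bar w (j • d) = bar u d := by
    intro d
    induction d using QuotientGroup.induction_on with
    | H r =>
      have h1 := hj2 r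
      have h2 := hj2 (j * r)
      rw [← mul_assoc, hj, u.2] at h2
      have h3 : w.1 r + w.1 (j * r) = u.1 (j * r) := by
        have h4 : (2 : ℤ_[2]) ≠ 0 := by norm_num
        apply mul_left_cancel₀ h4
        linear_combination h1 + h2
      have h4 := congrArg PadicInt.toZMod (hj2 r)
      rw [map_mul, map_ofNat, h20, zero_mul, map_add] at h4
      change PadicInt.toZMod (w.1 r) + PadicInt.toZMod (w.1 (j * r)) = PadicInt.toZMod (u.1 r)
      rw [← map_add, h3, ← neg_mod_two (PadicInt.toZMod (u.1 r))]
      linear_combination -h4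
  have hsplit : aug w = ∑ d ∈ Finset.univ.filter (fun d => chibar k d = 0), bar u d := by
    change ∑ d, bar w d = _
    rw [← Finset.sum_filter_add_sum_filter_not Finset.univ (fun d => chibar k d = 0) (bar w)]
    have h1 : ∑ d ∈ Finset.univ.filter (fun d => ¬ chibar k d = 0), bar w d =
        ∑ d ∈ Finset.univ.filter (fun d => chibar k d = 0), bar w (j • d) := by
      symm
      apply Finset.sum_nbij' (fun d => j • d) (fun d => j⁻¹ • d)
      · intro d hd
        rw [Finset.mem_filter] at hd ⊢
        refine ⟨Finset.mem_univ _, ?_⟩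
        rw [chibar_smul, hcj, hd.2]
        decide
      · intro d hd
        rw [Finset.mem_filter] at hd ⊢
        refine ⟨Finset.mem_univ _, ?_⟩
        have h2 := chibar_smul j (j⁻¹ • d)
        rw [smul_inv_smul, hcj] at h2
        have h3 := hd.2
        revert h3
        rw [h2]
        generalize chibar k (j⁻¹ • d) = y
        revert y
        decide
      · intro d _
        exact inv_smul_smul j d
      · intro d _
        exact smul_inv_smul j d
      · intro d _
        rfl
    rw [h1, ← Finset.sum_add_distrib]
    exact Finset.sum_congr rfl fun d _ => hww d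
  rw [hsplit]
  apply Finset.sum_involution (fun d _ => i • d)
  · intro d _
    rw [hui]
    generalize bar u d = y
    revert y
    decide
  · intro d _ _ h
    induction d using QuotientGroup.induction_on with
    | H r =>
      have h1 : (QuotientGroup.mk (i * r) : QuaternionGroup k ⧸ ZZ k) = QuotientGroup.mk r := h
      rw [QuotientGroup.eq] at h1
      rcases h1 with h2 | h2
      · rw [inv_mul_eq_one] at h2
        exact hi1 (mul_eq_right.mp h2)
      · rw [inv_mul_eq_iff_eq_mul, mul_assoc, ← zz_comm, ← mul_assoc] at h2
        have h3 : i * zz k = 1 := by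
          apply mul_right_cancel (b := r)
          rw [one_mul]
          exact h2.symm
        apply hiz
        apply mul_right_cancel (b := zz k)
        rw [h3, zz_sq]
  · intro d hd
    induction d using QuotientGroup.induction_on with
    | H r =>
      change (QuotientGroup.mk (i * (i * r)) : QuaternionGroup k ⧸ ZZ k) = QuotientGroup.mk r
      rw [← mul_assoc, hi, QuotientGroup.eq, zz_comm, mul_inv_rev]
      have : (zz k)⁻¹ * r⁻¹ * r = (zz k)⁻¹ := by group
      rw [this]
      exact (ZZ k).inv_mem (Or.inr rfl)
  · intro d hd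
    rw [Finset.mem_filter] at hd ⊢
    refine ⟨Finset.mem_univ _, ?_⟩
    rw [chibar_smul, hci, hd.2, zero_add]

end Pool.Agent.V1128.Quat
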